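import Mathlib

set_option linter.unusedVariables false

namespace Pool.Agent.H.MP_c2c9d7_co

def c00 (X Y : ℝ) : ℝ := (-13589611875590471680000) + (178258322653184000) * Y + (-1652555776000) * Y^2 + (8765440) * Y^3 + (-23) * Y^4 + (511272906915840000) * X + (-3083652300800) * X * Y + (9011200) * X * Y^2 + (7) * X * Y^3 + (-8088295833600) * X^2 + (30187520) * X^2 * Y + (-65) * X^2 * Y^2 + (56115200) * X^3 + (-83) * X^3 * Y + (-148) * X^4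
def p00 (X Y X2 XY Y2 X3 X2Y XY2 Y3 : ℕ) : ℕ := (Nat.add (Nat.add (Nat.add (Nat.add (Nat.add (Nat.add (Nat.mul 178258322653184000 Y) (Nat.mul 8765440 Y3)) (Nat.mul 511272906915840000 X)) (Nat.mul 9011200 XY2)) (Nat.mul 7 (Nat.mul XY Y2))) (Nat.mul 30187520 X2Y)) (Nat.mul 56115200 X3))
def n00 (X Y X2 XY Y2 X3 X2Y XY2 Y3 : ℕ) : ℕ := (Nat.add (Nat.add (Nat.add (Nat.add (Nat.add (Nat.add (Nat.add 13589611875590471680000 (Nat.mul 1652555776000 Y2)) (Nat.mul 23 (Nat.mul Y2 Y2))) (Nat.mul 3083652300800 XY)) (Nat.mul 8088295833600 X2)) (Nat.mul 65 (Nat.mul X2 Y2))) (Nat.mul 83 (Nat.mul X2 XY))) (Nat.mul 148 (Nat.mul X2 X2)))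
theorem e00 (X Y : ℕ) : (p00 X Y (X*X) (X*Y) (Y*Y) (X*X*X) (X*X*Y) (X*(Y*Y)) (Y*Y*Y) : ℝ) - n00 X Y (X*X) (X*Y) (Y*Y) (X*X*X) (X*X*Y) (X*(Y*Y)) (Y*Y*Y) = c00 X Y := by
  simp only [p00, n00, c00, Nat.add_eq, Nat.mul_eq]; push_cast; ring
def c10 (X Y : ℝ) : ℝ := (511272906915840000) + (-3083652300800) * Y + (9011200) * Y^2 + (7) * Y^3 + (-16176591667200) * X + (60375040) * X * Y + (-130) * X * Y^2 + (168345600) * X^2 + (-249) * X^2 * Y + (-592) * X^3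
def p10 (X Y X2 XY Y2 X3 X2Y XY2 Y3 : ℕ) : ℕ := (Nat.add (Nat.add (Nat.add (Nat.add 511272906915840000 (Nat.mul 9011200 Y2)) (Nat.mul 7 Y3)) (Nat.mul 60375040 XY)) (Nat.mul 168345600 X2))
def n10 (X Y X2 XY Y2 X3 X2Y XY2 Y3 : ℕ) : ℕ := (Nat.add (Nat.add (Nat.add (Nat.add (Nat.mul 3083652300800 Y) (Nat.mul 16176591667200 X)) (Nat.mul 130 XY2)) (Nat.mul 249 X2Y)) (Nat.mul 592 X3))
theorem e10 (X Y : ℕ) : (p10 X Y (X*X) (X*Y) (Y*Y) (X*X*X) (X*X*Y) (X*(Y*Y)) (Y*Y*Y) : ℝ) - n10 X Y (X*X) (X*Y) (Y*Y) (X*X*X) (X*X*Y) (X*(Y*Y)) (Y*Y*Y) = c10 X Y := by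
  simp only [p10, n10, c10, Nat.add_eq, Nat.mul_eq]; push_cast; ring
def c01 (X Y : ℝ) : ℝ := (178258322653184000) + (-3305111552000) * Y + (26296320) * Y^2 + (-92) * Y^3 + (-3083652300800) * X + (18022400) * X * Y + (21) * X * Y^2 + (30187520) * X^2 + (-130) * X^2 * Y + (-83) * X^3
def p01 (X Y X2 XY Y2 X3 X2Y XY2 Y3 : ℕ) : ℕ := (Nat.add (Nat.add (Nat.add (Nat.add 178258322653184000 (Nat.mul 26296320 Y2)) (Nat.mul 18022400 XY)) (Nat.mul 21 XY2)) (Nat.mul 30187520 X2))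
def n01 (X Y X2 XY Y2 X3 X2Y XY2 Y3 : ℕ) : ℕ := (Nat.add (Nat.add (Nat.add (Nat.add (Nat.mul 3305111552000 Y) (Nat.mul 92 Y3)) (Nat.mul 3083652300800 X)) (Nat.mul 130 X2Y)) (Nat.mul 83 X3))
theorem e01 (X Y : ℕ) : (p01 X Y (X*X) (X*Y) (Y*Y) (X*X*X) (X*X*Y) (X*(Y*Y)) (Y*Y*Y) : ℝ) - n01 X Y (X*X) (X*Y) (Y*Y) (X*X*X) (X*X*Y) (X*(Y*Y)) (Y*Y*Y) = c01 X Y := by
  simp only [p01, n01, c01, Nat.add_eq, Nat.mul_eq]; push_cast; ring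
def c20 (X Y : ℝ) : ℝ := (-8088295833600) + (30187520) * Y + (-65) * Y^2 + (168345600) * X + (-249) * X * Y + (-888) * X^2
def p20 (X Y X2 XY Y2 : ℕ) : ℕ := (Nat.add (Nat.mul 30187520 Y) (Nat.mul 168345600 X))
def n20 (X Y X2 XY Y2 : ℕ) : ℕ := (Nat.add (Nat.add (Nat.add 8088295833600 (Nat.mul 65 Y2)) (Nat.mul 249 XY)) (Nat.mul 888 X2))
theorem e20 (X Y : ℕ) : (p20 X Y (X*X) (X*Y) (Y*Y) : ℝ) - n20 X Y (X*X) (X*Y) (Y*Y) = c20 X Y := by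
  simp only [p20, n20, c20, Nat.add_eq, Nat.mul_eq]; push_cast; ring
def c11 (X Y : ℝ) : ℝ := (-3083652300800) + (18022400) * Y + (21) * Y^2 + (60375040) * X + (-260) * X * Y + (-249) * X^2
def p11 (X Y X2 XY Y2 : ℕ) : ℕ := (Nat.add (Nat.add (Nat.mul 18022400 Y) (Nat.mul 21 Y2)) (Nat.mul 60375040 X))
def n11 (X Y X2 XY Y2 : ℕ) : ℕ := (Nat.add (Nat.add 3083652300800 (Nat.mul 260 XY)) (Nat.mul 249 X2))
theorem e11 (X Y : ℕ) : (p11 X Y (X*X) (X*Y) (Y*Y) : ℝ) - n11 X Y (X*X) (X*Y) (Y*Y) = c11 X Y := by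
  simp only [p11, n11, c11, Nat.add_eq, Nat.mul_eq]; push_cast; ring
def c02 (X Y : ℝ) : ℝ := (-1652555776000) + (26296320) * Y + (-138) * Y^2 + (9011200) * X + (21) * X * Y + (-65) * X^2
def p02 (X Y X2 XY Y2 : ℕ) : ℕ := (Nat.add (Nat.add (Nat.mul 26296320 Y) (Nat.mul 9011200 X)) (Nat.mul 21 XY))
def n02 (X Y X2 XY Y2 : ℕ) : ℕ := (Nat.add (Nat.add 1652555776000 (Nat.mul 138 Y2)) (Nat.mul 65 X2))
theorem e02 (X Y : ℕ) : (p02 X Y (X*X) (X*Y) (Y*Y) : ℝ) - n02 X Y (X*X) (X*Y) (Y*Y) = c02 X Y := by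
  simp only [p02, n02, c02, Nat.add_eq, Nat.mul_eq]; push_cast; ring
def c30 (X Y : ℝ) : ℝ := (56115200) + (-83) * Y + (-592) * X
def p30 (X Y : ℕ) : ℕ := 56115200
def n30 (X Y : ℕ) : ℕ := (Nat.add (Nat.mul 83 Y) (Nat.mul 592 X))
theorem e30 (X Y : ℕ) : (p30 X Y : ℝ) - n30 X Y = c30 X Y := by
  simp only [p30, n30, c30, Nat.add_eq, Nat.mul_eq]; push_cast; ring
def c21 (X Y : ℝ) : ℝ := (30187520) + (-130) * Y + (-249) * X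
def p21 (X Y : ℕ) : ℕ := 30187520
def n21 (X Y : ℕ) : ℕ := (Nat.add (Nat.mul 130 Y) (Nat.mul 249 X))
theorem e21 (X Y : ℕ) : (p21 X Y : ℝ) - n21 X Y = c21 X Y := by
  simp only [p21, n21, c21, Nat.add_eq, Nat.mul_eq]; push_cast; ring
def c12 (X Y : ℝ) : ℝ := (9011200) + (21) * Y + (-130) * X
def p12 (X Y : ℕ) : ℕ := (Nat.add 9011200 (Nat.mul 21 Y))
def n12 (X Y : ℕ) : ℕ := (Nat.mul 130 X)
theorem e12 (X Y : ℕ) : (p12 X Y : ℝ) - n12 X Y = c12 X Y := by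
  simp only [p12, n12, c12, Nat.add_eq, Nat.mul_eq]; push_cast; ring
def c03 (X Y : ℝ) : ℝ := (8765440) + (-92) * Y + (7) * X
def p03 (X Y : ℕ) : ℕ := (Nat.add 8765440 (Nat.mul 7 X))
def n03 (X Y : ℕ) : ℕ := (Nat.mul 92 Y)
theorem e03 (X Y : ℕ) : (p03 X Y : ℝ) - n03 X Y = c03 X Y := by
  simp only [p03, n03, c03, Nat.add_eq, Nat.mul_eq]; push_cast; ring

noncomputable def fn {β : Type} (n : ℕ) (k : ℕ → β) : β :=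
  Nat.rec (k 0) (fun m _ => k (Nat.succ m)) n

theorem fn_eq {β : Type} (n : ℕ) (k : ℕ → β) : fn n k = k n := by cases n <;> rfl

noncomputable def ab (p n : ℕ) : ℕ := fn p fun p => fn n fun n => Nat.add (Nat.sub p n) (Nat.sub n p)

theorem nsub (p n : ℕ) : ((p - n : ℕ) : ℝ) - ((n - p : ℕ) : ℝ) = p - n := by
  rcases le_total p n with h | h
  · rw [Nat.sub_eq_zero_of_le h, Nat.cast_sub h]; simp
  · rw [Nat.sub_eq_zero_of_le h, Nat.cast_sub h]; simp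

theorem le_sub' (p n : ℕ) : (p : ℝ) - n ≤ ((p - n : ℕ) : ℝ) := by
  have := nsub p n; have h : (0 : ℝ) ≤ ((n - p : ℕ) : ℝ) := Nat.cast_nonneg _; linarith

theorem abs_pn (p n : ℕ) : |(p : ℝ) - n| = ((p - n : ℕ) : ℝ) + ((n - p : ℕ) : ℝ) := by
  rcases le_total p n with h | h
  · rw [Nat.sub_eq_zero_of_le h, Nat.cast_sub h, abs_sub_comm, abs_of_nonneg]; simp
    simpa using h
  · rw [Nat.sub_eq_zero_of_le h, Nat.cast_sub h, abs_of_nonneg]; simp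
    simpa using h

theorem ab_eq (p n : ℕ) : (ab p n : ℝ) = |(p : ℝ) - n| := by
  simp only [ab, fn_eq, Nat.add_eq, Nat.sub_eq, abs_pn]; push_cast; rfl

noncomputable def G (X Y : ℝ) : ℝ :=
  22300745198530623141535718272648361505980416000000000000 * c00 X Y
    - 125 * ((X - 81920) ^ 2 + (Y - 81920) ^ 2) ^ 8

theorem mon {c dx dy Dx Dy : ℝ} (i j : ℕ) (hx : |dx| ≤ Dx) (hy : |dy| ≤ Dy) :
    |c * dx ^ i * dy ^ j| ≤ |c| * (Dx ^ i * Dy ^ j) := by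
  have := (abs_nonneg _).trans hx
  rw [abs_mul, abs_mul, abs_pow, abs_pow, mul_assoc]; gcongr

theorem tay (X Y dx dy Dx Dy m : ℝ) (hx : |dx| ≤ Dx) (hy : |dy| ≤ Dy) (h1 : Dx ≤ m) (h2 : Dy ≤ m) :
    |c00 (X + dx) (Y + dy) - (c00 X Y + c10 X Y * dx + c01 X Y * dy + c20 X Y * dx ^ 2
      + c02 X Y * dy ^ 2)| ≤ |c11 X Y| * (Dx * Dy)
      + (|c30 X Y| + |c21 X Y| + |c12 X Y| + |c03 X Y|) * m ^ 3 + 326 * m ^ 4 := by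
  have e : c00 (X + dx) (Y + dy) - (c00 X Y + c10 X Y * dx + c01 X Y * dy + c20 X Y * dx ^ 2
      + c02 X Y * dy ^ 2) = c11 X Y * dx ^ 1 * dy ^ 1 + c30 X Y * dx ^ 3 * dy ^ 0
      + c21 X Y * dx ^ 2 * dy ^ 1 + c12 X Y * dx ^ 1 * dy ^ 2 + c03 X Y * dx ^ 0 * dy ^ 3
      + (-148) * dx ^ 4 * dy ^ 0 + (-83) * dx ^ 3 * dy ^ 1 + (-65) * dx ^ 2 * dy ^ 2
      + 7 * dx ^ 1 * dy ^ 3 + (-23) * dx ^ 0 * dy ^ 4 := by
    simp only [c00, c10, c01, c20, c02, c11, c30, c21, c12, c03]; ring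
  have hx' := hx.trans h1
  have hy' := hy.trans h2
  have a1 := abs_le.1 (mon (c := c11 X Y) 1 1 hx hy)
  have a2 := abs_le.1 (mon (c := c30 X Y) 3 0 hx' hy')
  have a3 := abs_le.1 (mon (c := c21 X Y) 2 1 hx' hy')
  have a4 := abs_le.1 (mon (c := c12 X Y) 1 2 hx' hy')
  have a5 := abs_le.1 (mon (c := c03 X Y) 0 3 hx' hy')
  have a6 := abs_le.1 (mon (c := -148) 4 0 hx' hy')
  have a7 := abs_le.1 (mon (c := -83) 3 1 hx' hy')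
  have a8 := abs_le.1 (mon (c := -65) 2 2 hx' hy')
  have a9 := abs_le.1 (mon (c := 7) 1 3 hx' hy')
  have a0 := abs_le.1 (mon (c := -23) 0 4 hx' hy')
  rw [e, abs_le]
  norm_num at a1 a2 a3 a4 a5 a6 a7 a8 a9 a0 ⊢
  constructor <;> linarith [a1.1, a2.1, a3.1, a4.1, a5.1, a6.1, a7.1, a8.1, a9.1, a0.1,
    a1.2, a2.2, a3.2, a4.2, a5.2, a6.2, a7.2, a8.2, a9.2, a0.2]

theorem bar (x y dx dy Dx Dy : ℝ) (hx : |dx| ≤ Dx) (hy : |dy| ≤ Dy) :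
    (x ^ 2 + y ^ 2) ^ 8 + 16 * (x ^ 2 + y ^ 2) ^ 7 * (x * dx + y * dy)
      ≤ ((x + dx) ^ 2 + (y + dy) ^ 2) ^ 8 ∧
    ((x + dx) ^ 2 + (y + dy) ^ 2) ^ 8 ≤
      (x ^ 2 + y ^ 2 + 2 * (|x| * Dx + |y| * Dy) + (Dx ^ 2 + Dy ^ 2)) ^ 8
      - 16 * (x ^ 2 + y ^ 2) ^ 7 * (|x| * Dx + |y| * Dy)
      + 16 * (x ^ 2 + y ^ 2) ^ 7 * (x * dx + y * dy) := by
  have b1 : |x * dx| ≤ |x| * Dx := by rw [abs_mul]; gcongr
  have b2 : |y * dy| ≤ |y| * Dy := by rw [abs_mul]; gcongr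
  have b3 : dx ^ 2 ≤ Dx ^ 2 := by rw [← sq_abs dx]; gcongr
  have b4 : dy ^ 2 ≤ Dy ^ 2 := by rw [← sq_abs dy]; gcongr
  rw [abs_le] at b1 b2
  obtain ⟨s0, hs0⟩ : ∃ s0, s0 = x ^ 2 + y ^ 2 := ⟨_, rfl⟩
  obtain ⟨s, hs⟩ : ∃ s, s = (x + dx) ^ 2 + (y + dy) ^ 2 := ⟨_, rfl⟩
  obtain ⟨L, hL⟩ : ∃ L, L = x * dx + y * dy := ⟨_, rfl⟩
  obtain ⟨E, hE⟩ : ∃ E, E = |x| * Dx + |y| * Dy := ⟨_, rfl⟩
  obtain ⟨q, hq⟩ : ∃ q, q = Dx ^ 2 + Dy ^ 2 := ⟨_, rfl⟩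
  have p0 : 0 ≤ s0 := by rw [hs0]; positivity
  have p1 : 0 ≤ s := by rw [hs]; positivity
  have d1 : 2 * L ≤ s - s0 := by rw [hs, hs0, hL]; nlinarith [sq_nonneg dx, sq_nonneg dy]
  have d2 : s - s0 ≤ 2 * L + q := by rw [hs, hs0, hL, hq]; nlinarith
  have d3 : |s - s0| ≤ 2 * E + q := by
    have : 0 ≤ q := by rw [hq]; positivity
    rw [abs_le]; constructor <;> linarith [b1.1, b1.2, b2.1, b2.2]
  rw [← hs0, ← hs, ← hL, ← hE, ← hq]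
  have p7 : 0 ≤ s0 ^ 7 := by positivity
  have id (s : ℝ) : s ^ 8 = s0 ^ 8 + 8 * s0 ^ 7 * (s - s0) + (s - s0) ^ 2 * (s ^ 6 + 2 * s ^ 5 * s0
      + 3 * s ^ 4 * s0 ^ 2 + 4 * s ^ 3 * s0 ^ 3 + 5 * s ^ 2 * s0 ^ 4 + 6 * s * s0 ^ 5
      + 7 * s0 ^ 6) := by ring
  constructor
  · rw [id s]
    have : 0 ≤ (s - s0) ^ 2 * (s ^ 6 + 2 * s ^ 5 * s0
      + 3 * s ^ 4 * s0 ^ 2 + 4 * s ^ 3 * s0 ^ 3 + 5 * s ^ 2 * s0 ^ 4 + 6 * s * s0 ^ 5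
      + 7 * s0 ^ 6) := by positivity
    linarith [mul_le_mul_of_nonneg_left d1 p7]
  · obtain ⟨t, ht⟩ : ∃ t, t = s0 + 2 * E + q := ⟨_, rfl⟩
    have st : s ≤ t := by linarith [(abs_le.1 d3).2]
    have sq : (s - s0) ^ 2 ≤ (t - s0) ^ 2 := by
      rw [← sq_abs (s - s0)]; gcongr; linarith
    rw [← ht, id s, id t]
    have : (s - s0) ^ 2 * (s ^ 6 + 2 * s ^ 5 * s0
      + 3 * s ^ 4 * s0 ^ 2 + 4 * s ^ 3 * s0 ^ 3 + 5 * s ^ 2 * s0 ^ 4 + 6 * s * s0 ^ 5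
      + 7 * s0 ^ 6) ≤ (t - s0) ^ 2 * (t ^ 6 + 2 * t ^ 5 * s0
      + 3 * t ^ 4 * s0 ^ 2 + 4 * t ^ 3 * s0 ^ 3 + 5 * t ^ 2 * s0 ^ 4 + 6 * t * s0 ^ 5
      + 7 * s0 ^ 6) := by gcongr
    have e : t - s0 = 2 * E + q := by linarith
    have := mul_le_mul_of_nonneg_left d2 p7
    have e2 : s0 ^ 7 * (t - s0) = s0 ^ 7 * (2 * E + q) := by rw [e]
    linarith

end Pool.Agent.H.MP_c2c9d7_co
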