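import Pool.Agent.H.MP_c2c9d7_co.A

set_option linter.unusedVariables false

namespace Pool.Agent.H.MP_c2c9d7_co

noncomputable def core (O X Y Dx Dy : ℕ) (sg : Bool) (k : ℕ → ℕ → ℕ → ℕ → ℕ → ℕ → Bool) : Bool :=
  fn (Nat.mul X X) fun X2 => fn (Nat.mul X Y) fun XY => fn (Nat.mul Y Y) fun Y2 =>
  fn (Nat.mul X2 X) fun X3 => fn (Nat.mul X2 Y) fun X2Y => fn (Nat.mul X Y2) fun XY2 =>
  fn (Nat.mul Y2 Y) fun Y3 =>
  fn (Nat.sub X O) fun xp => fn (Nat.sub O X) fun xn =>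
  fn (Nat.sub Y O) fun yp => fn (Nat.sub O Y) fun yn =>
  fn (Nat.add xp xn) fun ax => fn (Nat.add yp yn) fun ay =>
  fn (Nat.add (Nat.mul ax ax) (Nat.mul ay ay)) fun s0 =>
  fn (Nat.pow s0 7) fun p7 => fn (Nat.mul 2000 p7) fun b2 =>
  fn (Nat.add (Nat.mul 22300745198530623141535718272648361505980416000000000000
    (p10 X Y X2 XY Y2 X3 X2Y XY2 Y3)) (Nat.mul b2 xn)) fun gp =>
  fn (Nat.add (Nat.mul 22300745198530623141535718272648361505980416000000000000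
    (n10 X Y X2 XY Y2 X3 X2Y XY2 Y3)) (Nat.mul b2 xp)) fun gn =>
  fn (Nat.add (Nat.mul 22300745198530623141535718272648361505980416000000000000
    (p01 X Y X2 XY Y2 X3 X2Y XY2 Y3)) (Nat.mul b2 yn)) fun hp =>
  fn (Nat.add (Nat.mul 22300745198530623141535718272648361505980416000000000000
    (n01 X Y X2 XY Y2 X3 X2Y XY2 Y3)) (Nat.mul b2 yp)) fun hn =>
  fn (Nat.sub gp gn) fun g1 => fn (Nat.sub gn gp) fun g2 =>
  fn (Nat.sub hp hn) fun h1 => fn (Nat.sub hn hp) fun h2 =>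
  fn (Nat.add Dx (Nat.sub Dy Dx)) fun m => fn (Nat.pow m 3) fun m3 =>
  fn (Nat.mul Dx Dx) fun Dx2 => fn (Nat.mul Dy Dy) fun Dy2 =>
  fn (Nat.add (Nat.add (Nat.mul (ab (p11 X Y X2 XY Y2) (n11 X Y X2 XY Y2)) (Nat.mul Dx Dy))
    (Nat.mul (Nat.add (Nat.add (Nat.add (ab (p30 X Y) (n30 X Y)) (ab (p21 X Y) (n21 X Y)))
      (ab (p12 X Y) (n12 X Y))) (ab (p03 X Y) (n03 X Y))) m3)) (Nat.mul 326 (Nat.mul m3 m))) fun e0 =>
  cond sg
    (k (Nat.add (Nat.mul 22300745198530623141535718272648361505980416000000000000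
        (n00 X Y X2 XY Y2 X3 X2Y XY2 Y3)) (Nat.mul 125 (Nat.mul p7 s0)))
      (Nat.mul 22300745198530623141535718272648361505980416000000000000
        (Nat.add (Nat.add (Nat.add (p00 X Y X2 XY Y2 X3 X2Y XY2 Y3) e0)
          (Nat.mul (Nat.sub (p20 X Y X2 XY Y2) (n20 X Y X2 XY Y2)) Dx2))
          (Nat.mul (Nat.sub (p02 X Y X2 XY Y2) (n02 X Y X2 XY Y2)) Dy2))) g2 g1 h2 h1)
    (fn (Nat.add (Nat.mul ax Dx) (Nat.mul ay Dy)) fun Dh =>
      k (Nat.add (Nat.mul 22300745198530623141535718272648361505980416000000000000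
        (p00 X Y X2 XY Y2 X3 X2Y XY2 Y3)) (Nat.mul b2 Dh))
      (Nat.add (Nat.mul 22300745198530623141535718272648361505980416000000000000
        (Nat.add (Nat.add (Nat.add (n00 X Y X2 XY Y2 X3 X2Y XY2 Y3) e0)
          (Nat.mul (Nat.sub (n20 X Y X2 XY Y2) (p20 X Y X2 XY Y2)) Dx2))
          (Nat.mul (Nat.sub (n02 X Y X2 XY Y2) (p02 X Y X2 XY Y2)) Dy2)))
        (Nat.mul 125 (Nat.pow (Nat.add (Nat.add s0 (Nat.mul 2 Dh)) (Nat.add Dx2 Dy2)) 8))) g1 g2 h1 h2)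

theorem sq_bd {c d D : ℝ} {p n : ℕ} (h : (p : ℝ) - n = c) (hd : |d| ≤ D) :
    c * d ^ 2 ≤ ((p - n : ℕ) : ℝ) * (D * D) ∧ -(c * d ^ 2) ≤ ((n - p : ℕ) : ℝ) * (D * D) := by
  have b : d ^ 2 ≤ D * D := by rw [← sq_abs d, ← sq]; gcongr
  have a1 := le_sub' p n
  have a2 := le_sub' n p
  have z1 : (0 : ℝ) ≤ ((p - n : ℕ) : ℝ) := Nat.cast_nonneg _
  have z2 : (0 : ℝ) ≤ ((n - p : ℕ) : ℝ) := Nat.cast_nonneg _
  constructor <;> nlinarith [sq_nonneg d]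

theorem core_spec (O X Y Dx Dy : ℕ) (hO : (O : ℝ) = 81920) (sg : Bool) (k) (h : core O X Y Dx Dy sg k = true) :
    ∃ cp cn g1 g2 h1 h2 : ℕ, k cp cn g1 g2 h1 h2 = true ∧ ∀ dx dy : ℝ, |dx| ≤ Dx → |dy| ≤ Dy →
      (cp : ℝ) - cn + ((g1 : ℝ) - g2) * dx + ((h1 : ℝ) - h2) * dy
        ≤ (cond sg (-1) 1) * G (X + dx) (Y + dy) := by
  simp only [core, fn_eq, Nat.add_eq, Nat.mul_eq, Nat.sub_eq, Nat.pow_eq] at h
  have m1 : (Dx : ℝ) ≤ ((Dx + (Dy - Dx) : ℕ) : ℝ) := by exact_mod_cast (by omega)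
  have m2 : (Dy : ℝ) ≤ ((Dx + (Dy - Dx) : ℕ) : ℝ) := by exact_mod_cast (by omega)
  have ex := nsub X O
  have ey := nsub Y O
  have ax := abs_pn X O
  have ay := abs_pn Y O
  generalize Dx + (Dy - Dx) = m at *
  generalize X - O = xp at *
  generalize O - X = xn at *
  generalize Y - O = yp at *
  generalize O - Y = yn at *
  rw [hO] at ex ey ax ay
  have sx : ((xp : ℝ) + xn) * (xp + xn) = (X - 81920) ^ 2 := by rw [← ax, ← sq, sq_abs]
  have sy : ((yp : ℝ) + yn) * (yp + yn) = (Y - 81920) ^ 2 := by rw [← ay, ← sq, sq_abs]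
  cases sg
  all_goals
    simp only [Bool.cond_false, Bool.cond_true] at h ⊢
    refine ⟨_, _, _, _, _, _, h, fun dx dy hx hy => ?_⟩
    have t := abs_le.1 (tay X Y dx dy Dx Dy m hx hy m1 m2)
    have b := bar ((X : ℝ) - 81920) ((Y : ℝ) - 81920) dx dy Dx Dy hx hy
    have q1 := sq_bd (e20 X Y) hx
    have q2 := sq_bd (e02 X Y) hy
    rw [nsub, nsub]
    clear h
    simp only [G]
    generalize p20 X Y (X * X) (X * Y) (Y * Y) - n20 X Y (X * X) (X * Y) (Y * Y) = a1 at *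
    generalize n20 X Y (X * X) (X * Y) (Y * Y) - p20 X Y (X * X) (X * Y) (Y * Y) = a2 at *
    generalize p02 X Y (X * X) (X * Y) (Y * Y) - n02 X Y (X * X) (X * Y) (Y * Y) = a3 at *
    generalize n02 X Y (X * X) (X * Y) (Y * Y) - p02 X Y (X * X) (X * Y) (Y * Y) = a4 at *
    push_cast
    simp only [ab_eq, e11, e30, e21, e12, e03, sx, sy]
    rw [← e00 X Y, ← e10 X Y, ← e01 X Y] at t
    rw [ax, ay] at b
    have r1 : (X : ℝ) + dx - 81920 = X - 81920 + dx := by ring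
    have r2 : (Y : ℝ) + dy - 81920 = Y - 81920 + dy := by ring
    rw [r1, r2]
    generalize ((X : ℝ) - 81920 + dx) ^ 2 + (Y - 81920 + dy) ^ 2 = s at *
    generalize ((X : ℝ) - 81920) ^ 2 + (Y - 81920) ^ 2 = s0 at *
    rw [← ex, ← ey] at b
    have r3 : (Dx : ℝ) * Dx + Dy * Dy = Dx ^ 2 + Dy ^ 2 := by ring
    try rw [r3]
    generalize (s0 + 2 * (((xp : ℝ) + xn) * Dx + (yp + yn) * Dy) + (Dx ^ 2 + Dy ^ 2)) ^ 8 = W at *
    generalize p00 X Y _ _ _ _ _ _ _ = z1 at *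
    generalize n00 X Y _ _ _ _ _ _ _ = z2 at *
    generalize p10 X Y _ _ _ _ _ _ _ = z3 at *
    generalize n10 X Y _ _ _ _ _ _ _ = z4 at *
    generalize p01 X Y _ _ _ _ _ _ _ = z5 at *
    generalize n01 X Y _ _ _ _ _ _ _ = z6 at *
    generalize c00 _ _ = z7 at *
    generalize |c11 _ _| = z8 at *
    generalize |c30 _ _| + |c21 _ _| + |c12 _ _| + |c03 _ _| = z9 at *
    generalize c20 _ _ * dx ^ 2 = y1 at *
    generalize c02 _ _ * dy ^ 2 = y2 at *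
    clear m1 m2 ex ax ey ay sx sy hx hy r1 r2 r3
    linarith [t.1, t.2, b.1, b.2, q1.1, q1.2, q2.1, q2.2]

end Pool.Agent.H.MP_c2c9d7_co
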