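import Pool.Agent.H.MP_c2c9d7_co.B

set_option linter.unusedVariables false

namespace Pool.Agent.H.MP_c2c9d7_co

noncomputable def step (O d X Y ap an bp bn h1 h2 er Cp Cn Xp Xn Yp Yn Tp Tn : ℕ)
    (k : ℕ → ℕ → ℕ → ℕ → ℕ → ℕ → ℕ → ℕ → Bool) : Bool :=
  fn (Nat.mod d 8) fun l => cond (Nat.beq l 0) (k Cp Cn Xp Xn Yp Yn Tp Tn)
    (fn X fun X => fn Y fun Y => fn ap fun ap => fn an fun an => fn bp fun bp => fn bn fun bn =>
     fn (Nat.add (Nat.add h1 (ab ap an)) er) fun Dx =>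
     fn (Nat.add (Nat.add h2 (ab bp bn)) er) fun Dy =>
      core O X Y Dx Dy (Nat.ble 8 d) fun cp cn g1 g2 f1 f2 =>
        k (Nat.add Cp (Nat.mul l cp))
          (Nat.add Cn (Nat.mul l (Nat.add cn
            (Nat.mul (Nat.add (Nat.add g1 g2) (Nat.add f1 f2)) er))))
          (Nat.add Xp (Nat.mul l g1)) (Nat.add Xn (Nat.mul l g2))
          (Nat.add Yp (Nat.mul l f1)) (Nat.add Yn (Nat.mul l f2))
          (Nat.add Tp (Nat.mul l (Nat.add (Nat.add (Nat.mul g1 ap) (Nat.mul g2 an))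
            (Nat.add (Nat.mul f1 bp) (Nat.mul f2 bn)))))
          (Nat.add Tn (Nat.mul l (Nat.add (Nat.add (Nat.mul g1 an) (Nat.mul g2 ap))
            (Nat.add (Nat.mul f1 bn) (Nat.mul f2 bp))))))

def pz (d : ℕ) : ℕ := cond (Nat.ble 8 d) 0 (Nat.mod d 8)
def nz (d : ℕ) : ℕ := cond (Nat.ble 8 d) (Nat.mod d 8) 0

def Inv (a b e : ℝ) (Cp Cn Xp Xn Yp Yn Tp Tn : ℕ) (Z : ℝ) : Prop :=
  (Cp : ℝ) - Cn + ((Xp : ℝ) - Xn) * a + ((Yp : ℝ) - Yn) * b + ((Tp : ℝ) - Tn) * e ≤ Z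

theorem step_spec {O d X Y ap an bp bn h1 h2 er Cp Cn Xp Xn Yp Yn Tp Tn : ℕ} {k}
    (hO : (O : ℝ) = 81920) (h : step O d X Y ap an bp bn h1 h2 er Cp Cn Xp Xn Yp Yn Tp Tn k = true)
    {a b e Z g x y : ℝ} (ha : |a| ≤ h1) (hb : |b| ≤ h2) (he : |e| ≤ 1)
    (hx : |x - (X + a + ((ap : ℝ) - an) * e)| ≤ er) (hy : |y - (Y + b + ((bp : ℝ) - bn) * e)| ≤ er)
    (hg : G x y = g) (hI : Inv a b e Cp Cn Xp Xn Yp Yn Tp Tn Z) :
    ∃ Cp Cn Xp Xn Yp Yn Tp Tn, k Cp Cn Xp Xn Yp Yn Tp Tn = true ∧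
      Inv a b e Cp Cn Xp Xn Yp Yn Tp Tn (Z + ((pz d : ℝ) - nz d) * g) := by
  simp only [step, fn_eq] at h
  have hl : ((pz d : ℝ) - nz d) = (Nat.mod d 8 : ℕ) * cond (Nat.ble 8 d) (-1) 1 := by
    unfold pz nz; cases Nat.ble 8 d <;> simp
  rw [hl]
  generalize Nat.mod d 8 = l at *
  cases hc : Nat.beq l 0
  · rw [hc, Bool.cond_false] at h
    obtain ⟨cp, cn, g1, g2, f1, f2, hk, hs⟩ := core_spec _ _ _ _ _ hO _ _ h
    refine ⟨_, _, _, _, _, _, _, _, hk, ?_⟩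
    obtain ⟨u, hu⟩ : ∃ u, u = x - (X + a + ((ap : ℝ) - an) * e) := ⟨_, rfl⟩
    obtain ⟨v, hv⟩ : ∃ v, v = y - (Y + b + ((bp : ℝ) - bn) * e) := ⟨_, rfl⟩
    rw [← hu] at hx
    rw [← hv] at hy
    have bd (a c u H : ℝ) (ha : |a| ≤ H) (hu : |u| ≤ er) : |a + c * e + u| ≤ H + |c| + er := by
      have : |c * e| ≤ |c| := by rw [abs_mul]; nlinarith [abs_nonneg c]
      linarith [abs_add_three a (c * e) u]
    have s := hs (a + ((ap : ℝ) - an) * e + u) (b + ((bp : ℝ) - bn) * e + v)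
      (by simp only [Nat.add_eq]; push_cast; rw [ab_eq]; exact bd _ _ _ _ ha hx)
      (by simp only [Nat.add_eq]; push_cast; rw [ab_eq]; exact bd _ _ _ _ hb hy)
    rw [show (X : ℝ) + (a + ((ap : ℝ) - an) * e + u) = x by rw [hu]; ring,
      show (Y : ℝ) + (b + ((bp : ℝ) - bn) * e + v) = y by rw [hv]; ring, hg] at s
    rw [abs_le] at hx hy
    have z1 : (0 : ℝ) ≤ g1 * (u + er) := mul_nonneg (Nat.cast_nonneg _) (by linarith)
    have z2 : (0 : ℝ) ≤ g2 * (er - u) := mul_nonneg (Nat.cast_nonneg _) (by linarith)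
    have z3 : (0 : ℝ) ≤ f1 * (v + er) := mul_nonneg (Nat.cast_nonneg _) (by linarith)
    have z4 : (0 : ℝ) ≤ f2 * (er - v) := mul_nonneg (Nat.cast_nonneg _) (by linarith)
    have w : (cp : ℝ) - (cn + ((g1 + g2) + (f1 + f2)) * er) + ((g1 : ℝ) - g2) * a
        + ((f1 : ℝ) - f2) * b + ((g1 * ap + g2 * an + (f1 * bp + f2 * bn))
          - (g1 * an + g2 * ap + (f1 * bn + f2 * bp))) * e ≤ cond (Nat.ble 8 d) (-1) 1 * g := by
      linarith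
    have w2 := mul_le_mul_of_nonneg_left w (Nat.cast_nonneg (α := ℝ) l)
    simp only [Inv, Nat.add_eq, Nat.mul_eq] at hI ⊢
    push_cast
    linarith
  · rw [hc, Bool.cond_true] at h
    have : l = 0 := Nat.eq_of_beq_eq_true hc
    subst this
    exact ⟨_, _, _, _, _, _, _, _, h, by simpa using hI⟩

noncomputable def fin (h1 h2 Cp Cn Xp Xn Yp Yn Tp Tn : ℕ) : Bool :=
  Nat.blt (Nat.add (Nat.add (Nat.add Cn (Nat.mul (ab Xp Xn) h1)) (Nat.mul (ab Yp Yn) h2)) (ab Tp Tn)) Cp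

theorem fin_spec {h1 h2 Cp Cn Xp Xn Yp Yn Tp Tn : ℕ} (h : fin h1 h2 Cp Cn Xp Xn Yp Yn Tp Tn = true)
    {a b e Z : ℝ} (ha : |a| ≤ h1) (hb : |b| ≤ h2) (he : |e| ≤ 1)
    (hI : Inv a b e Cp Cn Xp Xn Yp Yn Tp Tn Z) : 0 < Z := by
  simp only [fin, Nat.blt_eq, Nat.add_eq, Nat.mul_eq] at h
  have h' : (Cn : ℝ) + ab Xp Xn * h1 + ab Yp Yn * h2 + ab Tp Tn < Cp := by exact_mod_cast h
  simp only [ab_eq] at h'
  have bd (c a H : ℝ) (ha : |a| ≤ H) : -(|c| * H) ≤ c * a := by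
    have : |c * a| ≤ |c| * H := by rw [abs_mul]; gcongr
    exact (abs_le.1 this).1
  have := bd ((Xp : ℝ) - Xn) a h1 ha
  have := bd ((Yp : ℝ) - Yn) b h2 hb
  have := bd ((Tp : ℝ) - Tn) e 1 he
  unfold Inv at hI
  linarith

noncomputable def go (lf : ℕ → ℕ → ℕ → ℕ → ℕ → ℕ → ℕ → Bool) (d : ℕ) :
    ℕ → ℕ → ℕ → ℕ → ℕ → ℕ → ℕ → ℕ :=
  Nat.rec (fun _ _ _ _ _ _ _ => 0) (fun _ ih l1 h1 l2 h2 l3 h3 n =>
    fn (Nat.mod n 4) fun c => fn (Nat.div n 4) fun r =>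
    cond (Nat.beq c 3) (cond (lf (Nat.mod r 65536) l1 h1 l2 h2 l3 h3) (Nat.div r 65536) 0)
    (cond (Nat.beq c 0)
      (fn (Nat.div (Nat.add h1 1) 2) fun g => fn (ih l1 g l2 h2 l3 h3 r) fun q =>
        cond (Nat.beq q 0) 0 (fn (Nat.add l1 (Nat.mul 2 g)) fun l => ih l g l2 h2 l3 h3 q))
    (cond (Nat.beq c 1)
      (fn (Nat.div (Nat.add h2 1) 2) fun g => fn (ih l1 h1 l2 g l3 h3 r) fun q =>
        cond (Nat.beq q 0) 0 (fn (Nat.add l2 (Nat.mul 2 g)) fun l => ih l1 h1 l g l3 h3 q))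
      (fn (Nat.div (Nat.add h3 1) 2) fun g => fn (ih l1 h1 l2 h2 l3 g r) fun q =>
        cond (Nat.beq q 0) 0 (fn (Nat.add l3 (Nat.mul 2 g)) fun l => ih l1 h1 l2 h2 l g q))))) d

def In (l h : ℕ) (x : ℝ) : Prop := (l : ℝ) ≤ x ∧ x ≤ l + 2 * h

theorem In.split {l h : ℕ} {x : ℝ} (H : In l h x) :
    In l (Nat.div (Nat.add h 1) 2) x ∨
      In (Nat.add l (Nat.mul 2 (Nat.div (Nat.add h 1) 2))) (Nat.div (Nat.add h 1) 2) x := by
  have : h ≤ 2 * Nat.div (Nat.add h 1) 2 := by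
    show h ≤ 2 * ((h + 1) / 2); omega
  generalize Nat.div (Nat.add h 1) 2 = g at *
  have h' : (h : ℝ) ≤ 2 * g := by exact_mod_cast this
  simp only [In, Nat.add_eq, Nat.mul_eq] at *
  push_cast
  rcases le_total x (l + 2 * g) with c | c
  · exact Or.inl ⟨H.1, c⟩
  · exact Or.inr ⟨c, by linarith [H.2]⟩

theorem go_spec (lf) (Q : ℝ → ℝ → ℝ → Prop)
    (hl : ∀ c l1 h1 l2 h2 l3 h3, lf c l1 h1 l2 h2 l3 h3 = true →
      ∀ x y t, In l1 h1 x → In l2 h2 y → In l3 h3 t → Q x y t) (d : ℕ) :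
    ∀ l1 h1 l2 h2 l3 h3 n, go lf d l1 h1 l2 h2 l3 h3 n ≠ 0 →
      ∀ x y t, In l1 h1 x → In l2 h2 y → In l3 h3 t → Q x y t := by
  induction d with
  | zero => intro _ _ _ _ _ _ _ h; exact absurd rfl h
  | succ d ih =>
    intro l1 h1 l2 h2 l3 h3 n h x y t hx hy ht
    have cz (q r : ℕ) (h : cond (Nat.beq q 0) 0 r ≠ 0) : q ≠ 0 ∧ r ≠ 0 := by
      cases q with
      | zero => exact absurd rfl h
      | succ q => exact ⟨Nat.succ_ne_zero q, h⟩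
    unfold go at h ih
    simp only [fn_eq] at h ih
    cases c3 : Nat.beq (Nat.mod n 4) 3
    · rw [c3, Bool.cond_false] at h
      cases c0 : Nat.beq (Nat.mod n 4) 0
      · rw [c0, Bool.cond_false] at h
        cases c1 : Nat.beq (Nat.mod n 4) 1
        · rw [c1, Bool.cond_false] at h
          obtain ⟨a, b⟩ := cz _ _ h
          rcases ht.split with c | c
          · exact ih _ _ _ _ _ _ _ a x y t hx hy c
          · exact ih _ _ _ _ _ _ _ b x y t hx hy c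
        · rw [c1, Bool.cond_true] at h
          obtain ⟨a, b⟩ := cz _ _ h
          rcases hy.split with c | c
          · exact ih _ _ _ _ _ _ _ a x y t hx c ht
          · exact ih _ _ _ _ _ _ _ b x y t hx c ht
      · rw [c0, Bool.cond_true] at h
        obtain ⟨a, b⟩ := cz _ _ h
        rcases hx.split with c | c
        · exact ih _ _ _ _ _ _ _ a x y t c hy ht
        · exact ih _ _ _ _ _ _ _ b x y t c hy ht
    · rw [c3, Bool.cond_true] at h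
      cases c : lf (Nat.mod (Nat.div n 4) 65536) l1 h1 l2 h2 l3 h3
      · rw [c] at h; exact absurd rfl h
      · exact hl _ _ _ _ _ _ _ c x y t hx hy ht

end Pool.Agent.H.MP_c2c9d7_co
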