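import Pool.Agent.H.MP_c2c9d7_co.C

set_option linter.unusedVariables false

namespace Pool.Agent.H.MP_c2c9d7_co

noncomputable def lf3 (O A T a b c l1 h1 l2 h2 l3 h3 : ℕ) : Bool :=
  fn (Nat.add l1 h1) fun cx => fn (Nat.add l2 h2) fun cy => fn (Nat.add l3 h3) fun t0 =>
  fn (Nat.mul T T) fun T2 => fn (Nat.mul t0 t0) fun t2 => fn (Nat.add T2 t2) fun D0 =>
  fn (Nat.mul D0 D0) fun D2 => fn (Nat.mul (Nat.mul 2 t0) h3) fun th => fn (Nat.mul h3 h3) fun hh =>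
  fn (Nat.mul (Nat.mul 2 A) T) fun AT =>
  fn (Nat.div (Nat.mul A (Nat.sub T2 t2)) D0) fun u0 =>
  fn (Nat.div (Nat.mul (Nat.mul (Nat.mul 2 A) T2) th) D2) fun u1 =>
  fn (Nat.div (Nat.mul AT t0) D0) fun w0 =>
  fn (Nat.div (Nat.mul (Nat.mul AT (Nat.sub T2 t2)) h3) D2) fun w1 =>
  fn (Nat.add A u0) fun Au =>
  fn (Nat.add (Nat.add (Nat.add (ab (Nat.mul A T2) (Nat.add (Nat.mul A t2) (Nat.mul D0 u0)))
    (ab (Nat.mul D0 u1) (Nat.mul th Au))) (ab (Nat.mul th u1) (Nat.mul hh Au))) (Nat.mul hh u1)) fun eu =>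
  fn (Nat.add (Nat.add (Nat.add (ab (Nat.mul AT t0) (Nat.mul D0 w0))
    (ab (Nat.mul AT h3) (Nat.add (Nat.mul D0 w1) (Nat.mul th w0))))
    (Nat.add (Nat.mul th w1) (Nat.mul hh w0))) (Nat.mul hh w1)) fun ew =>
  fn (Nat.mul 3 (Nat.add (Nat.div (Nat.add eu (Nat.sub ew eu)) (Nat.add T2 (Nat.mul l3 l3))) 1)) fun er =>
  fn (Nat.mul a u0) fun au => fn (Nat.mul a w0) fun aw =>
  fn (Nat.mul b u0) fun bu => fn (Nat.mul b w0) fun bw =>
  fn (Nat.mul a u1) fun au1 => fn (Nat.mul a w1) fun aw1 =>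
  fn (Nat.mul b u1) fun bu1 => fn (Nat.mul b w1) fun bw1 =>
  fn (Nat.mod c 16) fun d1 => fn (Nat.mod (Nat.div c 16) 16) fun d2 =>
  fn (Nat.mod (Nat.div c 256) 16) fun d3 => fn (Nat.div c 4096) fun d4 =>
  Nat.ble (Nat.add au bw) cx && (Nat.ble (Nat.add aw bu) cy &&
  (Nat.beq (Nat.add (Nat.add (pz d1) (pz d2)) (Nat.add (pz d3) (pz d4)))
    (Nat.add (Nat.add (nz d1) (nz d2)) (Nat.add (nz d3) (nz d4))) &&
  step O d1 (Nat.sub (Nat.add cx au) bw) (Nat.add cy (Nat.add aw bu)) 0 (Nat.add au1 bw1) aw1 bu1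
    h1 h2 er 0 0 0 0 0 0 0 0 fun Cp Cn Xp Xn Yp Yn Tp Tn =>
  step O d2 (Nat.sub cx (Nat.add au bw)) (Nat.sub (Nat.add cy bu) aw) au1 bw1 0 (Nat.add aw1 bu1)
    h1 h2 er Cp Cn Xp Xn Yp Yn Tp Tn fun Cp Cn Xp Xn Yp Yn Tp Tn =>
  step O d3 (Nat.sub (Nat.add cx bw) au) (Nat.sub cy (Nat.add aw bu)) (Nat.add au1 bw1) 0 bu1 aw1
    h1 h2 er Cp Cn Xp Xn Yp Yn Tp Tn fun Cp Cn Xp Xn Yp Yn Tp Tn =>
  step O d4 (Nat.add cx (Nat.add au bw)) (Nat.sub (Nat.add cy aw) bu) bw1 au1 (Nat.add aw1 bu1) 0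
    h1 h2 er Cp Cn Xp Xn Yp Yn Tp Tn (fin h1 h2)))

def Lev (a b x y u w : ℝ) : Prop :=
  G (x + a * u - b * w) (y + a * w + b * u) = G (x - a * u - b * w) (y - a * w + b * u) ∧
  G (x + a * u - b * w) (y + a * w + b * u) = G (x - a * u + b * w) (y - a * w - b * u) ∧
  G (x + a * u - b * w) (y + a * w + b * u) = G (x + a * u + b * w) (y + a * w - b * u)

theorem encl {n0 n1 n2 n3 D z e : ℝ} {M L : ℕ} (h : D * z = n0 + n1 * e + n2 * e ^ 2 + n3 * e ^ 3)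
    (he : |e| ≤ 1) (hM : |n0| + |n1| + |n2| + |n3| ≤ M) (hL : 0 < L) (hD : (L : ℝ) ≤ D) :
    |z| ≤ ((M / L + 1 : ℕ) : ℝ) := by
  have bd (c : ℝ) (i : ℕ) : |c * e ^ i| ≤ |c| := by
    rw [abs_mul, abs_pow]
    exact mul_le_of_le_one_right (abs_nonneg _) (pow_le_one₀ (abs_nonneg _) he)
  have b1 := abs_le.1 (bd n1 1)
  have b2 := abs_le.1 (bd n2 2)
  have b3 := abs_le.1 (bd n3 3)
  have b0 := abs_le.1 (le_refl |n0|)
  rw [pow_one] at b1
  have k : |D * z| ≤ M := by rw [h, abs_le]; constructor <;> linarith [b0.1, b0.2, b1.1, b1.2]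
  have p : (0 : ℝ) < L := by exact_mod_cast hL
  have q : (M : ℝ) ≤ L * ((M / L + 1 : ℕ) : ℝ) := by
    exact_mod_cast (Nat.lt_mul_div_succ M hL).le
  rw [abs_mul, abs_of_pos (by linarith)] at k
  have : (L : ℝ) * |z| ≤ D * |z| := by gcongr
  exact le_of_mul_le_mul_left (by linarith) p

theorem In.abs {l h : ℕ} {x : ℝ} (H : In l h x) : |x - ((l + h : ℕ) : ℝ)| ≤ h := by
  push_cast; rw [abs_le]; constructor <;> linarith [H.1, H.2]

theorem lf3_spec (O A T a b : ℕ) (hO : (O : ℝ) = 81920) (hT : 0 < T) (hab : a + b ≤ 3)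
    (c l1 h1 l2 h2 l3 h3 : ℕ) (h : lf3 O A T a b c l1 h1 l2 h2 l3 h3 = true) (x y t : ℝ)
    (hx : In l1 h1 x) (hy : In l2 h2 y) (ht : In l3 h3 t) :
    ¬ Lev a b x y (A * (T ^ 2 - t ^ 2) / (T ^ 2 + t ^ 2)) (2 * A * T * t / (T ^ 2 + t ^ 2)) := by
  simp only [lf3, fn_eq, Bool.and_eq_true, Nat.ble_eq, Nat.beq_eq, Nat.add_eq, Nat.mul_eq,
    Nat.sub_eq] at h
  obtain ⟨k1, k2, k3, h⟩ := h
  have ax := hx.abs
  have ay := hy.abs
  obtain ⟨e, he, et⟩ : ∃ e : ℝ, |e| ≤ 1 ∧ t = ((l3 + h3 : ℕ) : ℝ) + h3 * e := by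
    have := ht.abs
    rcases Nat.eq_zero_or_pos h3 with z | z
    · subst z; exact ⟨0, by simp, by simpa [sub_eq_zero] using this⟩
    · have p : (0 : ℝ) < h3 := by exact_mod_cast z
      refine ⟨(t - ((l3 + h3 : ℕ) : ℝ)) / h3, ?_, by field_simp; ring⟩
      rw [abs_div, abs_of_pos p, div_le_one p]; exact this
  have tl : ((T * T + l3 * l3 : ℕ) : ℝ) ≤ T ^ 2 + t ^ 2 := by
    have := ht.1
    have : (0 : ℝ) ≤ l3 := Nat.cast_nonneg _
    push_cast; nlinarith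
  have pT : (0 : ℝ) < T ^ 2 + t ^ 2 := by positivity
  have pL : 0 < T * T + l3 * l3 := by positivity
  generalize l1 + h1 = cx at *
  generalize l2 + h2 = cy at *
  generalize l3 + h3 = t0 at *
  generalize Nat.div (A * (T * T - t0 * t0)) (T * T + t0 * t0) = u0 at *
  generalize Nat.div (2 * A * (T * T) * (2 * t0 * h3)) _ = u1 at *
  generalize Nat.div (2 * A * T * t0) (T * T + t0 * t0) = w0 at *
  generalize Nat.div (2 * A * T * (T * T - t0 * t0) * h3) _ = w1 at *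
  generalize hu : ab (A * (T * T)) _ + ab _ _ + ab _ _ + h3 * h3 * u1 = eu at *
  generalize hw : ab (2 * A * T * t0) _ + ab _ _ + _ + h3 * h3 * w1 = ew at *
  obtain ⟨u, hu'⟩ : ∃ u : ℝ, u = A * (T ^ 2 - t ^ 2) / (T ^ 2 + t ^ 2) := ⟨_, rfl⟩
  obtain ⟨w, hw'⟩ : ∃ w : ℝ, w = 2 * A * T * t / (T ^ 2 + t ^ 2) := ⟨_, rfl⟩
  rw [← hu', ← hw']
  rw [eq_div_iff pT.ne'] at hu' hw'
  have m1 : (eu : ℝ) ≤ ((eu + (ew - eu) : ℕ) : ℝ) := by exact_mod_cast (by omega)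
  have m2 : (ew : ℝ) ≤ ((eu + (ew - eu) : ℕ) : ℝ) := by exact_mod_cast (by omega)
  have eU : |u - (u0 - u1 * e)| ≤ _ := encl (D := T ^ 2 + t ^ 2) (e := e)
    (n0 := A * (T * T) - (A * (t0 * t0) + (T * T + t0 * t0) * u0))
    (n1 := (T * T + t0 * t0) * u1 - 2 * t0 * h3 * (A + u0))
    (n2 := 2 * t0 * h3 * u1 - h3 * h3 * (A + u0)) (n3 := h3 * h3 * u1)
    (by rw [mul_sub, mul_comm _ u, hu', et]; ring) he
    (le_trans (by
      rw [← hu]; push_cast; simp only [ab_eq]; push_cast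
      rw [abs_of_nonneg (a := (h3 : ℝ) * h3 * u1) (by positivity)]) m1) pL tl
  have eW : |w - (w0 + w1 * e)| ≤ _ := encl (D := T ^ 2 + t ^ 2) (e := e)
    (n0 := 2 * A * T * t0 - (T * T + t0 * t0) * w0)
    (n1 := 2 * A * T * h3 - ((T * T + t0 * t0) * w1 + 2 * t0 * h3 * w0))
    (n2 := -(2 * t0 * h3 * w1 + h3 * h3 * w0)) (n3 := -(h3 * h3 * w1))
    (by rw [mul_sub, mul_comm _ w, hw', et]; ring) he
    (le_trans (by
      rw [← hw]; push_cast; simp only [ab_eq]; push_cast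
      rw [abs_neg, abs_neg, abs_of_nonneg (a := (h3 : ℝ) * h3 * w1) (by positivity),
        abs_of_nonneg (a := (2 : ℝ) * t0 * h3 * w1 + h3 * h3 * w0) (by positivity)]) m2) pL tl
  generalize hE : Nat.div (eu + (ew - eu)) (T * T + l3 * l3) + 1 = E at *
  clear hE hu hw m1 m2 hu' hw' tl
  have cb (s r : ℝ) (hs : |s| = 1) (hr : |r| = 1) (z : ℝ) :
      (z = s * (a * (u - (u0 - u1 * e))) + r * (b * (w - (w0 + w1 * e))) → |z| ≤ ((3 * E : ℕ) : ℝ)) ∧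
      (z = s * (b * (u - (u0 - u1 * e))) + r * (a * (w - (w0 + w1 * e))) → |z| ≤ ((3 * E : ℕ) : ℝ)) := by
    have hab' : (a : ℝ) + b ≤ 3 := by exact_mod_cast hab
    have pa : (0 : ℝ) ≤ a := Nat.cast_nonneg _
    have pb : (0 : ℝ) ≤ b := Nat.cast_nonneg _
    have pE : (0 : ℝ) ≤ E := Nat.cast_nonneg _
    constructor
    all_goals
      rintro rfl
      refine (abs_add_le _ _).trans ?_
      simp only [abs_mul, hs, hr, abs_of_nonneg pa, abs_of_nonneg pb]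
      push_cast
      nlinarith [mul_le_mul_of_nonneg_left eU pa, mul_le_mul_of_nonneg_left eU pb,
        mul_le_mul_of_nonneg_left eW pa, mul_le_mul_of_nonneg_left eW pb]
  rintro ⟨g2, g3, g4⟩
  have j1 : b * w0 ≤ cx + a * u0 := by omega
  have j2 : a * w0 ≤ cy + b * u0 := by omega
  have j3 : a * u0 ≤ cx + b * w0 := by omega
  have j4 : b * u0 ≤ cy + a * w0 := by omega
  have p1 : |(1 : ℝ)| = 1 := abs_one
  have n1 : |(-1 : ℝ)| = 1 := by simp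
  obtain ⟨_, _, _, _, _, _, _, _, h, I1⟩ := step_spec (x := x + a * u - b * w)
    (y := y + a * w + b * u) hO h ax ay he
    ((cb 1 (-1) p1 n1 _).1 (by push_cast [j1]; ring)) ((cb 1 1 p1 p1 _).2 (by push_cast; ring))
    rfl (Z := 0) (by simp [Inv])
  obtain ⟨_, _, _, _, _, _, _, _, h, I2⟩ := step_spec (x := x - a * u - b * w)
    (y := y - a * w + b * u) hO h ax ay he
    ((cb (-1) (-1) n1 n1 _).1 (by push_cast [k1]; ring))
    ((cb 1 (-1) p1 n1 _).2 (by push_cast [j2]; ring)) g2.symm I1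
  obtain ⟨_, _, _, _, _, _, _, _, h, I3⟩ := step_spec (x := x - a * u + b * w)
    (y := y - a * w - b * u) hO h ax ay he
    ((cb (-1) 1 n1 p1 _).1 (by push_cast [j3]; ring))
    ((cb (-1) (-1) n1 n1 _).2 (by push_cast [k2]; ring)) g3.symm I2
  obtain ⟨_, _, _, _, _, _, _, _, h, I4⟩ := step_spec (x := x + a * u + b * w)
    (y := y + a * w - b * u) hO h ax ay he
    ((cb 1 1 p1 p1 _).1 (by push_cast; ring))
    ((cb (-1) 1 n1 p1 _).2 (by push_cast [j4]; ring)) g4.symm I3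
  have := fin_spec h ax ay he I4
  have k3' := congrArg (fun n : ℕ => (n : ℝ) * G (x + a * u - b * w) (y + a * w + b * u)) k3
  push_cast at k3'
  linarith

noncomputable def lf2 (O R1 R2 M c l1 h1 l2 h2 l3 h3 : ℕ) : Bool :=
  fn (Nat.add l1 h1) fun X => fn (Nat.add l2 h2) fun Y => fn (ab X O) fun ax => fn (ab Y O) fun ay =>
  (Nat.blt R1 (Nat.add (Nat.pow (Nat.sub ax h1) 2) (Nat.pow (Nat.sub ay h2) 2)) ||
    core O X Y h1 h2 false fun cp cn g1 g2 f1 f2 => fin h1 h2 (Nat.add cp M) cn g1 g2 f1 f2 0 0) &&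
  (Nat.blt (Nat.add (Nat.pow (Nat.add ax h1) 2) (Nat.pow (Nat.add ay h2) 2)) R2 ||
    core O X Y h1 h2 true fun cp cn g1 g2 f1 f2 => fin h1 h2 cp (Nat.add cn M) g1 g2 f1 f2 0 0)

theorem sqb {X O h : ℕ} {x : ℝ} (H : |x - X| ≤ h) :
    (((ab X O - h : ℕ) : ℝ)) ^ 2 ≤ (x - O) ^ 2 ∧ (x - O) ^ 2 ≤ ((ab X O : ℝ) + h) ^ 2 := by
  have e := ab_eq X O
  have a1 : |x - O| ≤ ab X O + h := by
    rw [e]; linarith [abs_sub_le x X O]
  have a2 : ((ab X O - h : ℕ) : ℝ) ≤ |x - O| := by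
    rcases le_total (ab X O) h with c | c
    · rw [Nat.sub_eq_zero_of_le c]; simp
    · rw [Nat.cast_sub c, e]; linarith [abs_sub_le (X : ℝ) x O, abs_sub_comm x X]
  rw [← sq_abs (x - O)]
  constructor <;> gcongr

theorem lf2_spec (O R1 R2 M : ℕ) (hO : (O : ℝ) = 81920)
    (c l1 h1 l2 h2 l3 h3 : ℕ) (h : lf2 O R1 R2 M c l1 h1 l2 h2 l3 h3 = true) (x y t : ℝ)
    (hx : In l1 h1 x) (hy : In l2 h2 y) (ht : In l3 h3 t) :
    ((x - O) ^ 2 + (y - O) ^ 2 ≤ R1 → 0 < G x y + M) ∧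
      (R2 ≤ (x - O) ^ 2 + (y - O) ^ 2 → G x y + M < 0) := by
  simp only [lf2, fn_eq, Bool.and_eq_true, Bool.or_eq_true, Nat.blt_eq, Nat.add_eq,
    Nat.sub_eq, Nat.pow_eq] at h
  have ax := hx.abs
  have ay := hy.abs
  generalize l1 + h1 = X at *
  generalize l2 + h2 = Y at *
  have bx := sqb (O := O) ax
  have by' := sqb (O := O) ay
  have z : |(0 : ℝ)| ≤ 1 := by simp
  refine ⟨fun q => ?_, fun q => ?_⟩
  · rcases h.1 with k | k
    · have : (R1 : ℝ) < ((ab X O - h1 : ℕ) : ℝ) ^ 2 + ((ab Y O - h2 : ℕ) : ℝ) ^ 2 := by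
        exact_mod_cast k
      linarith [bx.1, by'.1]
    · obtain ⟨cp, cn, g1, g2, f1, f2, hk, hs⟩ := core_spec _ _ _ _ _ hO _ _ k
      have s := hs _ _ ax ay
      refine fin_spec hk ax ay z ?_
      simp only [Inv, add_sub_cancel, Bool.cond_false] at s ⊢
      push_cast; linarith
  · rcases h.2 with k | k
    · have : ((ab X O : ℝ) + h1) ^ 2 + ((ab Y O : ℝ) + h2) ^ 2 < R2 := by exact_mod_cast k
      linarith [bx.2, by'.2]
    · obtain ⟨cp, cn, g1, g2, f1, f2, hk, hs⟩ := core_spec _ _ _ _ _ hO _ _ k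
      have s := hs _ _ ax ay
      have := fin_spec (Z := -(G x y + M)) hk ax ay z (by
        simp only [Inv, add_sub_cancel, Bool.cond_true] at s ⊢
        push_cast; linarith)
      linarith

end Pool.Agent.H.MP_c2c9d7_co
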