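import Pool.Agent.H.MP_c2c9d7_co.E
import Pool.Agent.H.MP_c2c9d7_co.F

namespace Pool.Agent.H.MP_c2c9d7_co

theorem box {a b r : ℝ} (hr : 0 ≤ r) (h : a ^ 2 + b ^ 2 ≤ r ^ 2) :
    (-r ≤ a ∧ a ≤ r) ∧ (-r ≤ b ∧ b ≤ r) :=
  ⟨abs_le_of_sq_le_sq' (by linarith [sq_nonneg b]) hr,
    abs_le_of_sq_le_sq' (by linarith [sq_nonneg a]) hr⟩

theorem sq0 {a b : ℝ} (h : a ^ 2 + b ^ 2 = 0) : a = 0 ∧ b = 0 :=
  ⟨by nlinarith [sq_nonneg a, sq_nonneg b], by nlinarith [sq_nonneg a, sq_nonneg b]⟩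

theorem two (x y : ℝ) (h : (x - 81920) ^ 2 + (y - 81920) ^ 2 ≤ 40960 ^ 2) :
    ((x - 81920) ^ 2 + (y - 81920) ^ 2 ≤ 1426063360 → 0 < G x y + 100 * 40960 ^ 16) ∧
      (40960 ^ 2 ≤ (x - 81920) ^ 2 + (y - 81920) ^ 2 → G x y + 100 * 40960 ^ 16 < 0) := by
  have B := box (by norm_num) h
  have := go_spec _ _ (lf2_spec _ _ _ _ (by norm_num)) _ _ _ _ _ _ _ _ k2 x y 0
    (by constructor <;> push_cast <;> linarith [B.1.1, B.1.2])
    (by constructor <;> push_cast <;> linarith [B.2.1, B.2.2]) (by simp [In])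
  norm_num at this ⊢
  exact this

theorem chart (a b : ℕ) (hab : a = 1 ∧ b = 2 ∨ a = 2 ∧ b = 1) (x y t : ℝ) (hx : In 51200 30720 x)
    (hy : In 51200 30720 y) (ht : In 0 2048 t) :
    ¬ Lev a b x y ((12288 : ℕ) * ((4096 : ℕ) ^ 2 - t ^ 2) / ((4096 : ℕ) ^ 2 + t ^ 2))
      (2 * (12288 : ℕ) * (4096 : ℕ) * t / ((4096 : ℕ) ^ 2 + t ^ 2)) := by
  have c : In 51200 7680 x ∨ In 66560 7680 x ∨ In 81920 7680 x ∨ In 97280 7680 x := by
    simp only [In] at hx ⊢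
    push_cast at hx ⊢
    by_contra q
    push Not at q
    linarith [q.2.2.2 (by linarith [q.2.2.1 (by linarith [q.2.1 (by linarith [q.1 hx.1])])]), hx.2]
  have s (a b : ℕ) (h : a + b ≤ 3) := go_spec _ _ (lf3_spec 81920 12288 4096 a b (by norm_num)
    (by norm_num) h)
  rcases hab with ⟨rfl, rfl⟩ | ⟨rfl, rfl⟩ <;> rcases c with c | c | c | c
  · exact s 1 2 le_rfl _ _ _ _ _ _ _ _ k300 x y t c hy ht
  · exact s 1 2 le_rfl _ _ _ _ _ _ _ _ k301 x y t c hy ht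
  · exact s 1 2 le_rfl _ _ _ _ _ _ _ _ k302 x y t c hy ht
  · exact s 1 2 le_rfl _ _ _ _ _ _ _ _ k303 x y t c hy ht
  · exact s 2 1 le_rfl _ _ _ _ _ _ _ _ k310 x y t c hy ht
  · exact s 2 1 le_rfl _ _ _ _ _ _ _ _ k311 x y t c hy ht
  · exact s 2 1 le_rfl _ _ _ _ _ _ _ _ k312 x y t c hy ht
  · exact s 2 1 le_rfl _ _ _ _ _ _ _ _ k313 x y t c hy ht

theorem quad (a b : ℕ) (hab : a = 1 ∧ b = 2 ∨ a = 2 ∧ b = 1) (x y u w : ℝ) (hx : In 51200 30720 x)
    (hy : In 51200 30720 y) (hu : 0 ≤ u) (hw : 0 ≤ w) (h : u ^ 2 + w ^ 2 = 12288 ^ 2) :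
    ¬ Lev a b x y u w := by
  have p : 0 < 12288 + u := by linarith
  have w1 : w ≤ 12288 := by nlinarith
  have := chart a b hab x y (4096 * w / (12288 + u)) hx hy (by
    constructor
    · push_cast; positivity
    · rw [div_le_iff₀ p]; push_cast; nlinarith)
  push_cast at this
  have d : (4096 : ℝ) ^ 2 + (4096 * w / (12288 + u)) ^ 2 = 4096 ^ 2 * 24576 / (12288 + u) := by
    field_simp; linarith
  have e1 : (12288 : ℝ) * (4096 ^ 2 - (4096 * w / (12288 + u)) ^ 2)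
      / (4096 ^ 2 + (4096 * w / (12288 + u)) ^ 2) = u := by
    rw [d]; field_simp; linarith
  have e2 : 2 * (12288 : ℝ) * 4096 * (4096 * w / (12288 + u))
      / (4096 ^ 2 + (4096 * w / (12288 + u)) ^ 2) = w := by
    rw [d]; field_simp; ring
  rwa [e1, e2] at this

theorem three (x y u w : ℝ) (hx : In 51200 30720 x) (hy : In 51200 30720 y)
    (h : u ^ 2 + w ^ 2 = 12288 ^ 2) : ¬ Lev 1 2 x y u w := by
  rintro ⟨g2, g3, g4⟩
  rcases le_total 0 u with hu | hu <;> rcases le_total 0 w with hw | hw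
  · exact quad 1 2 (by simp) x y u w hx hy hu hw h (by simp only [Lev]; push_cast; exact ⟨g2, g3, g4⟩)
  · refine quad 2 1 (by simp) x y (-w) u hx hy (by linarith) hu (by linarith) ?_
    simp only [Lev]; push_cast; ring_nf at g2 g3 g4 ⊢
    exact ⟨by linarith, by linarith, by linarith⟩
  · refine quad 2 1 (by simp) x y w (-u) hx hy hw (by linarith) (by linarith) ?_
    simp only [Lev]; push_cast; ring_nf at g2 g3 g4 ⊢
    exact ⟨by linarith, by linarith, by linarith⟩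
  · refine quad 1 2 (by simp) x y (-u) (-w) hx hy (by linarith) (by linarith) (by linarith) ?_
    simp only [Lev]; push_cast; ring_nf at g2 g3 g4 ⊢
    exact ⟨by linarith, by linarith, by linarith⟩

noncomputable def ff (x y : ℝ) : ℝ :=
  if (x - 81920) ^ 2 + (y - 81920) ^ 2 ≤ 40960 ^ 2 then max 0 (G x y + 100 * 40960 ^ 16) else 0

theorem ff_cont : Continuous fun p : ℝ × ℝ => ff p.1 p.2 := by
  unfold ff
  refine Continuous.if_le ?_ continuous_const (by fun_prop) continuous_const fun p hp => ?_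
  · unfold G c00; fun_prop
  · exact max_eq_left ((two _ _ hp.le).2 hp.ge).le

theorem main (x y u w : ℝ) (hc : (x - 81920) ^ 2 + (y - 81920) ^ 2 ≤ 40960 ^ 2)
    (h : u ^ 2 + w ^ 2 = 12288 ^ 2) :
    ¬ (ff (x + u - 2 * w) (y + w + 2 * u) = ff (x - u - 2 * w) (y - w + 2 * u) ∧
      ff (x + u - 2 * w) (y + w + 2 * u) = ff (x - u + 2 * w) (y - w - 2 * u) ∧
      ff (x + u - 2 * w) (y + w + 2 * u) = ff (x + u + 2 * w) (y + w - 2 * u)) := by
  rintro ⟨g2, g3, g4⟩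
  have pos (x y : ℝ) (h : (x - 81920) ^ 2 + (y - 81920) ^ 2 ≤ 1426063360) : 0 < ff x y := by
    have h' : (x - 81920) ^ 2 + (y - 81920) ^ 2 ≤ 40960 ^ 2 := by linarith
    unfold ff; rw [if_pos h']; exact lt_max_of_lt_right ((two x y h').1 h)
  have inv (x y : ℝ) (h : 0 < ff x y) : (x - 81920) ^ 2 + (y - 81920) ^ 2 ≤ 40960 ^ 2 ∧
      G x y = ff x y - 100 * 40960 ^ 16 := by
    unfold ff at h ⊢
    split_ifs at h ⊢ with c
    · refine ⟨c, ?_⟩
      rcases lt_max_iff.1 h with q | q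
      · exact absurd q (lt_irrefl _)
      · rw [max_eq_right q.le]; ring
    · exact absurd h (lt_irrefl _)
  have P : 0 < ff (x + u - 2 * w) (y + w + 2 * u) := by
    by_contra q
    have n (x y : ℝ) (e : ¬ 0 < ff x y) : 1426063360 < (x - 81920) ^ 2 + (y - 81920) ^ 2 :=
      lt_of_not_ge fun c => e (pos x y c)
    have n1 := n _ _ q
    have n2 := n _ _ (g2 ▸ q)
    have n3 := n _ _ (g3 ▸ q)
    have n4 := n _ _ (g4 ▸ q)
    obtain ⟨X, rfl⟩ : ∃ X, x = X + 81920 := ⟨x - 81920, by ring⟩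
    obtain ⟨Y, rfl⟩ : ∃ Y, y = Y + 81920 := ⟨y - 81920, by ring⟩
    obtain ⟨p, hp⟩ : ∃ p, p = X * u + Y * w := ⟨_, rfl⟩
    obtain ⟨r, hr⟩ : ∃ r, r = Y * u - X * w := ⟨_, rfl⟩
    obtain ⟨s, hs⟩ : ∃ s, s = X ^ 2 + Y ^ 2 := ⟨_, rfl⟩
    have e : p ^ 2 + r ^ 2 = 12288 ^ 2 * s := by rw [hp, hr, hs, ← h]; ring
    have s1 : s ≤ 40960 ^ 2 := by rw [hs]; linarith
    have m1 : 671088640 < s + 2 * p + 4 * r := by rw [hs, hp, hr]; linarith
    have m2 : 671088640 < s - 2 * p + 4 * r := by rw [hs, hp, hr]; linarith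
    have m3 : 671088640 < s - 2 * p - 4 * r := by rw [hs, hp, hr]; linarith
    have m4 : 671088640 < s + 2 * p - 4 * r := by rw [hs, hp, hr]; linarith
    have m : 671088640 < s - 2 * (|p| + |r|) := by
      rcases abs_cases p with a | a <;> rcases abs_cases r with b | b <;> linarith [a.1, b.1]
    have z0 : 0 ≤ |p| + |r| := by positivity
    have k : 12288 ^ 2 * s ≤ (|p| + |r|) ^ 2 := by
      rw [← e, ← sq_abs p, ← sq_abs r]
      linarith [mul_nonneg (abs_nonneg p) (abs_nonneg r)]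
    generalize |p| + |r| = z at m z0 k
    rcases le_total z 503316480 with c | c
    · linarith [mul_nonneg (sub_nonneg.2 c) (by linarith : 0 ≤ z + 201326592)]
    · linarith
  have i1 := inv _ _ P
  have i2 := inv _ _ (g2 ▸ P)
  have i3 := inv _ _ (g3 ▸ P)
  have i4 := inv _ _ (g4 ▸ P)
  have b : (x - 81920) ^ 2 + (y - 81920) ^ 2 ≤ 30720 ^ 2 := by
    linarith [i1.1, i2.1, i3.1, i4.1]
  have B := box (by norm_num) b
  refine three x y u w
    (by constructor <;> push_cast <;> linarith only [B.1.1, B.1.2])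
    (by constructor <;> push_cast <;> linarith only [B.2.1, B.2.2]) h ?_
  simp only [Lev, one_mul]
  exact ⟨by rw [i1.2, i2.2, g2], by rw [i1.2, i3.2, g3], by rw [i1.2, i4.2, g4]⟩

end Pool.Agent.H.MP_c2c9d7_co
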